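import Pool.Agent.N897.Ind.Main

/-!
# `ind_*(ℓ) = 1/e` for every `ℓ ≥ 1`: the bound `2/e²` fails for every `ℓ ≥ 2`

The upper bound `1/e` is the theorem of Fox, Kwan and Sauermann (proved here again, by induction
and the LYM inequality). The lower bound is the new part: let `s = ℓ - 1`, let `t` be much larger
than `m`, and `m` large; in a ground set of about `t + s + m/p` elements take a random family `𝒯`
of `t`-sets, of such a density that a set of size `t + s` contains a member of `𝒯` with small
probability `a`, and let `𝒜` consist of `𝒯` and of all sets `T ∪ {w}` with `T ∈ 𝒯`. A set of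
size `t + s` which contains exactly one `T ∈ 𝒯` contains exactly `1 + s = ℓ` members of `𝒜`.
The expected number of pairs `T ⊆ B_p` with `|B_p| = t + i`, `i < s`, is smaller by the factor
`O(1/m)`, and `|B_p| > t + s` is less likely than `|B_p| = t + s` by the factor `m/t`; so,
conditionally on the rare event that `B_p` contains a member of `𝒜`, it contains exactly `ℓ` of
them with probability close to `1`. Many independent copies of this family give `1/e`.
-/

namespace Pool.Agent.Results.MP_eb6a62_co.IndStarEqInvE

open Filter Topology Pool.Agent.N897.Ind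

/-- For every `ℓ ≥ 1` the limit `ind_*(ℓ)` of `ind_*(ℓ, p)` as `p → 0+` exists and equals `1/e`;
and `1/e` is larger than `2/e²`. -/
theorem result :
    (∀ ℓ : ℕ, 1 ≤ ℓ →
      Tendsto (fun p : ℝ => ind ℓ p) (𝓝[>] 0) (𝓝 (1 / Real.exp 1))) ∧
    2 / Real.exp 1 ^ 2 < 1 / Real.exp 1 := by
  constructor
  · intro ℓ hℓ
    have h : (1 : ℝ) / Real.exp 1 = Real.exp (-1) := by
      rw [Real.exp_neg, one_div]
    rw [h]
    exact tendsto_ind hℓ
  · have h1 := Real.exp_one_gt_d9
    have h2 : 0 < Real.exp 1 := Real.exp_pos 1
    rw [div_lt_div_iff₀ (by positivity) h2]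
    nlinarith

end Pool.Agent.Results.MP_eb6a62_co.IndStarEqInvE
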